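import Mathlib

set_option autoImplicit false

/-!
A tetrahedron with a unique longest edge, neither of whose endpoints is a vertex of largest
curvature.
-/

namespace Pool.Agent.Results.MP_ba4d4a_gt.LongestEdgeCurvature

/-- The curvature (angle deficit) at the vertex `p i` of the tetrahedron with vertices
`p 0, p 1, p 2, p 3`: the number `2π` minus the sum of the angles at `p i` of the three faces
containing `p i`.  The faces containing `p i` are the triangles `p i, p j, p k`, one for each pair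
`j < k` of indices different from `i`, and the angle of such a face at `p i` is
`∠ (p j) (p i) (p k)`. -/
noncomputable def curvature (p : Fin 4 → EuclideanSpace ℝ (Fin 3)) (i : Fin 4) : ℝ :=
  2 * Real.pi - ∑ e ∈ Finset.univ.filter (fun e : Fin 4 × Fin 4 => e.1 < e.2 ∧ e.1 ≠ i ∧ e.2 ≠ i),
    EuclideanGeometry.angle (p e.1) (p i) (p e.2)

/-- the vertices -/
noncomputable def P : Fin 4 → EuclideanSpace ℝ (Fin 3) :=
  ![!₂[(1 : ℝ), -3, 0], !₂[(-1 : ℝ), -1, -1], !₂[(0 : ℝ), -1, 2], !₂[(1 : ℝ), 0, 0]]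

theorem angle_formula (a b c : EuclideanSpace ℝ (Fin 3)) :
    EuclideanGeometry.angle a b c = Real.arccos
      (((a 0 - b 0) * (c 0 - b 0) + (a 1 - b 1) * (c 1 - b 1) + (a 2 - b 2) * (c 2 - b 2)) /
        (√((a 0 - b 0) ^ 2 + (a 1 - b 1) ^ 2 + (a 2 - b 2) ^ 2) *
          √((c 0 - b 0) ^ 2 + (c 1 - b 1) ^ 2 + (c 2 - b 2) ^ 2))) := by
  unfold EuclideanGeometry.angle InnerProductGeometry.angle
  simp only [vsub_eq_sub, EuclideanSpace.norm_eq, PiLp.inner_apply, Fin.sum_univ_three,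
    PiLp.sub_apply, Real.norm_eq_abs, sq_abs, RCLike.inner_apply, conj_trivial]
  ring_nf

theorem dist_formula (a b : EuclideanSpace ℝ (Fin 3)) :
    dist a b = √((a 0 - b 0) ^ 2 + (a 1 - b 1) ^ 2 + (a 2 - b 2) ^ 2) := by
  simp only [EuclideanSpace.dist_eq, Fin.sum_univ_three, Real.dist_eq, sq_abs]

theorem curvature_formula (p : Fin 4 → EuclideanSpace ℝ (Fin 3)) :
    curvature p 0 = 2 * Real.pi - (EuclideanGeometry.angle (p 1) (p 0) (p 2) +
      EuclideanGeometry.angle (p 1) (p 0) (p 3) + EuclideanGeometry.angle (p 2) (p 0) (p 3)) ∧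
    curvature p 1 = 2 * Real.pi - (EuclideanGeometry.angle (p 0) (p 1) (p 2) +
      EuclideanGeometry.angle (p 0) (p 1) (p 3) + EuclideanGeometry.angle (p 2) (p 1) (p 3)) ∧
    curvature p 2 = 2 * Real.pi - (EuclideanGeometry.angle (p 0) (p 2) (p 1) +
      EuclideanGeometry.angle (p 0) (p 2) (p 3) + EuclideanGeometry.angle (p 1) (p 2) (p 3)) := by
  have h0 : Finset.univ.filter (fun e : Fin 4 × Fin 4 => e.1 < e.2 ∧ e.1 ≠ 0 ∧ e.2 ≠ 0) =
      {(1, 2), (1, 3), (2, 3)} := by decide
  have h1 : Finset.univ.filter (fun e : Fin 4 × Fin 4 => e.1 < e.2 ∧ e.1 ≠ 1 ∧ e.2 ≠ 1) =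
      {(0, 2), (0, 3), (2, 3)} := by decide
  have h2 : Finset.univ.filter (fun e : Fin 4 × Fin 4 => e.1 < e.2 ∧ e.1 ≠ 2 ∧ e.2 ≠ 2) =
      {(0, 1), (0, 3), (1, 3)} := by decide
  refine ⟨?_, ?_, ?_⟩
  · rw [curvature, h0, Finset.sum_insert (by decide), Finset.sum_insert (by decide),
      Finset.sum_singleton]
    ring
  · rw [curvature, h1, Finset.sum_insert (by decide), Finset.sum_insert (by decide),
      Finset.sum_singleton]
    ring
  · rw [curvature, h2, Finset.sum_insert (by decide), Finset.sum_insert (by decide),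
      Finset.sum_singleton]
    ring

theorem arccos_lt {x y a b c d : ℝ} (hx : 0 < x) (hy : 0 < y) (ha : 0 < a) (hb : 0 < b)
    (hc : 0 < c) (hd : 0 < d) (h : y ^ 2 * (a * b) < x ^ 2 * (c * d)) (h1 : x ^ 2 ≤ a * b) :
    Real.arccos (x / (√a * √b)) < Real.arccos (y / (√c * √d)) := by
  have hab : 0 < √a * √b := mul_pos (Real.sqrt_pos.2 ha) (Real.sqrt_pos.2 hb)
  have hcd : 0 < √c * √d := mul_pos (Real.sqrt_pos.2 hc) (Real.sqrt_pos.2 hd)
  have hab2 : (√a * √b) ^ 2 = a * b := by
    rw [mul_pow, Real.sq_sqrt ha.le, Real.sq_sqrt hb.le]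
  have hcd2 : (√c * √d) ^ 2 = c * d := by
    rw [mul_pow, Real.sq_sqrt hc.le, Real.sq_sqrt hd.le]
  have hlt : y / (√c * √d) < x / (√a * √b) := by
    rw [div_lt_div_iff₀ hcd hab]
    apply lt_of_pow_lt_pow_left₀ 2 (by positivity)
    have e1 : (y * (√a * √b)) ^ 2 = y ^ 2 * (a * b) := by rw [mul_pow, hab2]
    have e2 : (x * (√c * √d)) ^ 2 = x ^ 2 * (c * d) := by rw [mul_pow, hcd2]
    rw [e1, e2]
    exact h
  have hx1 : x / (√a * √b) ≤ 1 := by
    rw [div_le_one hab]
    apply le_of_sq_le_sq _ hab.le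
    rw [hab2]
    exact h1
  have hy0 : 0 < y / (√c * √d) := div_pos hy hcd
  exact Real.strictAntiOn_arccos ⟨by linarith, by linarith⟩ ⟨by linarith, hx1⟩ hlt

/-- the angles at the apex are smaller than those at the other end points -/
theorem angles_lt :
    (EuclideanGeometry.angle (P 1) (P 0) (P 2) < EuclideanGeometry.angle (P 0) (P 1) (P 3) ∧
    EuclideanGeometry.angle (P 1) (P 0) (P 3) < EuclideanGeometry.angle (P 0) (P 1) (P 2) ∧
    EuclideanGeometry.angle (P 2) (P 0) (P 3) < EuclideanGeometry.angle (P 2) (P 1) (P 3)) ∧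
    (EuclideanGeometry.angle (P 1) (P 0) (P 2) < EuclideanGeometry.angle (P 0) (P 2) (P 3) ∧
    EuclideanGeometry.angle (P 1) (P 0) (P 3) < EuclideanGeometry.angle (P 0) (P 2) (P 1) ∧
    EuclideanGeometry.angle (P 2) (P 0) (P 3) < EuclideanGeometry.angle (P 1) (P 2) (P 3)) := by
  refine ⟨⟨?_, ?_, ?_⟩, ?_, ?_, ?_⟩ <;>
  · rw [angle_formula, angle_formula]
    apply arccos_lt <;> (simp [P] <;> norm_num)

/-- There are four non-coplanar points `p 0, …, p 3` of `ℝ³` such that the tetrahedron spanned by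
them has a unique longest edge, and the curvature at each endpoint of this edge is strictly smaller
than the curvature at a third vertex. -/
theorem result : ∃ p : Fin 4 → EuclideanSpace ℝ (Fin 3), AffineIndependent ℝ p ∧
    ∃ i j : Fin 4, i ≠ j ∧
      (∀ k l : Fin 4, k ≠ l → ({k, l} : Set (Fin 4)) ≠ {i, j} →
        dist (p k) (p l) < dist (p i) (p j)) ∧
      ∃ m : Fin 4, curvature p i < curvature p m ∧ curvature p j < curvature p m := by
  refine ⟨P, ?_, 1, 2, by decide, ?_, 0, ?_, ?_⟩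
  · rw [affineIndependent_iff_linearIndependent_vsub ℝ P (0 : Fin 4),
      ← linearIndependent_equiv (finSuccAboveEquiv (0 : Fin 4)), Fintype.linearIndependent_iff]
    intro g hg
    rw [Fin.sum_univ_three] at hg
    have h0 := congrArg (fun v : EuclideanSpace ℝ (Fin 3) => v 0) hg
    have h1 := congrArg (fun v : EuclideanSpace ℝ (Fin 3) => v 1) hg
    have h2 := congrArg (fun v : EuclideanSpace ℝ (Fin 3) => v 2) hg
    simp [P, finSuccAboveEquiv_apply] at h0 h1 h2
    intro i
    fin_cases i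
    · show g 0 = 0
      linarith
    · show g 1 = 0
      linarith
    · show g 2 = 0
      linarith
  · intro k l hkl hs
    rw [dist_formula, dist_formula]
    apply Real.sqrt_lt_sqrt (by positivity)
    have h12 : ¬ (k = 1 ∧ l = 2) := by
      rintro ⟨rfl, rfl⟩
      exact hs rfl
    have h21 : ¬ (k = 2 ∧ l = 1) := by
      rintro ⟨rfl, rfl⟩
      exact hs (Set.pair_comm _ _)
    fin_cases k <;> fin_cases l <;> first
      | exact absurd rfl hkl
      | exact absurd ⟨rfl, rfl⟩ h12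
      | exact absurd ⟨rfl, rfl⟩ h21
      | (simp [P]; norm_num)
  · obtain ⟨c0, c1, c2⟩ := curvature_formula P
    rw [c0, c1]
    linarith [angles_lt.1.1, angles_lt.1.2.1, angles_lt.1.2.2]
  · obtain ⟨c0, c1, c2⟩ := curvature_formula P
    rw [c0, c2]
    linarith [angles_lt.2.1, angles_lt.2.2.1, angles_lt.2.2.2]

end Pool.Agent.Results.MP_ba4d4a_gt.LongestEdgeCurvature
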